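import Pool.Agent.Y970.PX.Stm

/-! Project PX: least common multiples and chains of quotients. -/

set_option autoImplicit false

namespace Pool.Agent.Y672.PX

open Finset Polynomial Pool.Agent.Y970.PX

lemma two {V a b : ℕ} (hV : V ≠ 0) (ha : a ≠ 0) (hb : b ≠ 0) :
    Nat.gcd V (Nat.lcm a b) ∣ Nat.lcm (Nat.gcd V a) (Nat.gcd V b) := by
  have h1 := Nat.gcd_ne_zero_left (n := a) hV
  have h2 := Nat.gcd_ne_zero_left (n := b) hV
  rw [← Nat.factorization_le_iff_dvd (Nat.gcd_ne_zero_left hV) (Nat.lcm_ne_zero h1 h2),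
    Nat.factorization_gcd hV (Nat.lcm_ne_zero ha hb), Nat.factorization_lcm ha hb,
    Nat.factorization_lcm h1 h2, Nat.factorization_gcd hV ha, Nat.factorization_gcd hV hb]
  intro p
  rw [Finsupp.inf_apply, Finsupp.sup_apply, Finsupp.sup_apply, Finsupp.inf_apply,
    Finsupp.inf_apply, inf_sup_left]

lemma dist {s : ℕ} (m : Fin s → ℕ) (V : ℕ) (hm : ∀ i, 1 ≤ m i) (hV : V ≠ 0)
    (A : Finset (Fin s)) : A.lcm m ≠ 0 ∧
      Nat.gcd V (A.lcm m) ∣ A.lcm (fun i => Nat.gcd V (m i)) := by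
  classical
  induction A using Finset.induction_on with
  | empty => simp
  | insert i A hi ih =>
    have h0 : m i ≠ 0 := (lt_of_lt_of_le one_pos (hm i)).ne'
    rw [Finset.lcm_insert, Finset.lcm_insert, lcm_eq_nat_lcm, lcm_eq_nat_lcm]
    exact ⟨Nat.lcm_ne_zero h0 ih.1, (two hV h0 ih.1).trans
      (Nat.lcm_dvd (Nat.dvd_lcm_left _ _) (ih.2.trans (Nat.dvd_lcm_right _ _)))⟩

theorem lcmStm : LCMStm := by
  intro s m V hm hV hdvd
  have h1 := (dist m V hm (by omega) univ).2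
  rw [← Nat.gcd_mul_lcm V (univ.lcm m)]
  exact mul_dvd_mul h1 (Nat.lcm_dvd hdvd (Finset.lcm_dvd fun i _ =>
    Finset.dvd_prod_of_mem m (mem_univ i)))

theorem chainStm : CHAINStm := by
  intro P Q H E E1 h1 h2 f1 f2
  obtain ⟨J, hJ⟩ : ∃ J, J = Ideal.span ({P, Q} : Set ℤ[X]) := ⟨_, rfl⟩
  obtain ⟨J1, hJ1⟩ : ∃ J, J = Ideal.span ({P, H} : Set ℤ[X]) := ⟨_, rfl⟩
  obtain ⟨J2, hJ2⟩ : ∃ J, J = Ideal.span ({P, E, E1} : Set ℤ[X]) := ⟨_, rfl⟩
  rw [← hJ] at h1 h2 ⊢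
  rw [← hJ1] at f1 ⊢
  rw [← hJ2] at f2 ⊢
  have hP : P ∈ J := by
    rw [hJ]
    exact Ideal.subset_span (by simp)
  have hm2 : ∀ v ∈ J2, H * v ∈ J := by
    intro v hv
    rw [hJ2, Ideal.mem_span_insert] at hv
    obtain ⟨a, z, hz, rfl⟩ := hv
    rw [Ideal.mem_span_pair] at hz
    obtain ⟨b, c, rfl⟩ := hz
    have e : H * (a * P + (b * E + c * E1)) = (H * a) * P + (b * (H * E) + c * (H * E1)) := by
      ring
    rw [e]
    exact J.add_mem (J.mul_mem_left _ hP) (J.add_mem (J.mul_mem_left _ h1) (J.mul_mem_left _ h2))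
  rw [← Nat.card_prod]
  refine Nat.card_le_card_of_surjective (fun p : (ℤ[X] ⧸ J1) × (ℤ[X] ⧸ J2) =>
    Ideal.Quotient.mk J (Quotient.out p.1 + H * Quotient.out p.2)) ?_
  intro g
  obtain ⟨f, rfl⟩ := Ideal.Quotient.mk_surjective g
  have e1 : Ideal.Quotient.mk J1 (Quotient.out (Ideal.Quotient.mk J1 f)) =
      Ideal.Quotient.mk J1 f := Quotient.out_eq' _
  rw [Ideal.Quotient.mk_eq_mk_iff_sub_mem, hJ1, Ideal.mem_span_pair] at e1
  obtain ⟨u, v, huv⟩ := e1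
  have e2 : Ideal.Quotient.mk J2 (Quotient.out (Ideal.Quotient.mk J2 (-v))) =
      Ideal.Quotient.mk J2 (-v) := Quotient.out_eq' _
  rw [Ideal.Quotient.mk_eq_mk_iff_sub_mem] at e2
  refine ⟨(Ideal.Quotient.mk J1 f, Ideal.Quotient.mk J2 (-v)), ?_⟩
  show Ideal.Quotient.mk J (Quotient.out (Ideal.Quotient.mk J1 f) +
    H * Quotient.out (Ideal.Quotient.mk J2 (-v))) = Ideal.Quotient.mk J f
  rw [Ideal.Quotient.mk_eq_mk_iff_sub_mem]
  rw [← hJ1] at huv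
  have e3 := J.add_mem (J.mul_mem_left u hP) (hm2 _ e2)
  have e4 : Quotient.out (Ideal.Quotient.mk J1 f) + H * Quotient.out (Ideal.Quotient.mk J2 (-v))
      - f = u * P + H * (Quotient.out (Ideal.Quotient.mk J2 (-v)) - -v) := by
    linear_combination -huv
  rw [e4]
  exact e3

theorem LCM.main : LCMStm := lcmStm

theorem CHAIN.main : CHAINStm := chainStm

end Pool.Agent.Y672.PX
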