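import Pool.Agent.Y970.PX.Stm

/-! Project PX: the size of the quotient by a product of linear factors. -/

set_option autoImplicit false

namespace Pool.Agent.Y672.PX

open Finset Polynomial Pool.Agent.Y970.PX

/-- one linear factor -/
lemma card_one (x : ℤ) (Q : ℤ[X]) :
    Nat.card (ℤ[X] ⧸ Ideal.span ({(X : ℤ[X]) - C x, Q} : Set ℤ[X])) = (Q.eval x).natAbs := by
  obtain ⟨n, hn⟩ : ∃ n, n = (Q.eval x).natAbs := ⟨_, rfl⟩
  rw [← hn]
  let φ : ℤ[X] →+* ZMod n := (Int.castRingHom (ZMod n)).comp (evalRingHom x)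
  have hφ : Function.Surjective φ := by
    intro a
    obtain ⟨b, hb⟩ := ZMod.intCast_surjective a
    refine ⟨C b, ?_⟩
    show ((Int.castRingHom (ZMod n)) ((C b).eval x)) = a
    rw [eval_C]
    exact hb
  have hker : RingHom.ker φ = Ideal.span ({(X : ℤ[X]) - C x, Q} : Set ℤ[X]) := by
    ext h
    rw [RingHom.mem_ker, Ideal.mem_span_pair]
    have e1 : φ h = ((h.eval x : ℤ) : ZMod n) := rfl
    have e2 : (((h.eval x : ℤ) : ZMod n) = 0) ↔ Q.eval x ∣ h.eval x := by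
      rw [ZMod.intCast_zmod_eq_zero_iff_dvd, hn, Int.natAbs_dvd]
    rw [e1, e2]
    constructor
    · rintro ⟨c, hc⟩
      obtain ⟨a, ha⟩ := X_sub_C_dvd_sub_C_eval (a := x) (p := h)
      obtain ⟨b, hb⟩ := X_sub_C_dvd_sub_C_eval (a := x) (p := Q)
      refine ⟨a - C c * b, C c, ?_⟩
      have h3 : (C (h.eval x) : ℤ[X]) = C (Q.eval x) * C c := by rw [hc, C_mul]
      linear_combination (-1) * ha + C c * hb - h3
    · rintro ⟨a, b, rfl⟩
      simp only [eval_add, eval_mul, eval_sub, eval_X, eval_C, sub_self, mul_zero, zero_add]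
      exact dvd_mul_left _ _
  rw [← hker, Nat.card_congr (RingHom.quotientKerEquivOfSurjective hφ).toEquiv, Nat.card_zmod]

/-- one step -/
lemma card_step (P' Q L : ℤ[X]) (hP' : P' ≠ 0) (hrel : ∀ v, P' ∣ v * Q → P' ∣ v) :
    Nat.card (ℤ[X] ⧸ Ideal.span ({L * P', Q} : Set ℤ[X])) =
      Nat.card (ℤ[X] ⧸ Ideal.span ({P', Q} : Set ℤ[X])) *
        Nat.card (ℤ[X] ⧸ Ideal.span ({L, Q} : Set ℤ[X])) := by
  obtain ⟨I, hI⟩ : ∃ I, I = Ideal.span ({L * P', Q} : Set ℤ[X]) := ⟨_, rfl⟩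
  obtain ⟨I', hI'⟩ : ∃ I, I = Ideal.span ({P', Q} : Set ℤ[X]) := ⟨_, rfl⟩
  obtain ⟨J, hJ⟩ : ∃ I, I = Ideal.span ({L, Q} : Set ℤ[X]) := ⟨_, rfl⟩
  rw [← hI, ← hI', ← hJ]
  have mI : ∀ h, h ∈ I ↔ ∃ a b, a * (L * P') + b * Q = h := fun h => by
    rw [hI, Ideal.mem_span_pair]
  have mI' : ∀ h, h ∈ I' ↔ ∃ a b, a * P' + b * Q = h := fun h => by
    rw [hI', Ideal.mem_span_pair]
  have mJ : ∀ h, h ∈ J ↔ ∃ a b, a * L + b * Q = h := fun h => by
    rw [hJ, Ideal.mem_span_pair]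
  have hle : I ≤ I' := by
    intro h hh
    obtain ⟨a, b, rfl⟩ := (mI h).1 hh
    exact (mI' _).2 ⟨a * L, b, by ring⟩
  let f : (ℤ[X] ⧸ I) →+ (ℤ[X] ⧸ I') := (Ideal.Quotient.factor hle).toAddMonoidHom
  have hf : Function.Surjective f := Ideal.Quotient.factor_surjective hle
  let g : ℤ[X] →+ (ℤ[X] ⧸ I) :=
    (Ideal.Quotient.mk I).toAddMonoidHom.comp (AddMonoidHom.mulLeft P')
  have hg : ∀ h, g h = Ideal.Quotient.mk I (P' * h) := fun h => rfl
  have hfm : ∀ h, f (Ideal.Quotient.mk I h) = Ideal.Quotient.mk I' h := fun h => rfl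
  have hker : g.ker = J.toAddSubgroup := by
    ext h
    rw [AddMonoidHom.mem_ker, hg, Ideal.Quotient.eq_zero_iff_mem, mI]
    show _ ↔ h ∈ J
    rw [mJ]
    constructor
    · rintro ⟨a, b, hab⟩
      have h1 : P' ∣ b * Q := ⟨h - a * L, by linear_combination hab⟩
      obtain ⟨b', rfl⟩ := hrel b h1
      refine ⟨a, b', ?_⟩
      apply mul_left_cancel₀ hP'
      linear_combination hab
    · rintro ⟨a, b, rfl⟩
      exact ⟨a, P' * b, by ring⟩
  have hrange : g.range = f.ker := by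
    ext y
    rw [AddMonoidHom.mem_range, AddMonoidHom.mem_ker]
    constructor
    · rintro ⟨h, rfl⟩
      rw [hg, hfm, Ideal.Quotient.eq_zero_iff_mem]
      exact (mI' _).2 ⟨h, 0, by ring⟩
    · intro hy
      obtain ⟨h, rfl⟩ := Ideal.Quotient.mk_surjective y
      rw [hfm, Ideal.Quotient.eq_zero_iff_mem] at hy
      obtain ⟨a, b, rfl⟩ := (mI' _).1 hy
      refine ⟨a, ?_⟩
      rw [hg, Ideal.Quotient.mk_eq_mk_iff_sub_mem]
      exact (mI _).2 ⟨0, -b, by ring⟩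
  have c1 := AddSubgroup.card_eq_card_quotient_mul_card_addSubgroup f.ker
  have c2 : Nat.card ((ℤ[X] ⧸ I) ⧸ f.ker) = Nat.card (ℤ[X] ⧸ I') :=
    Nat.card_congr (QuotientAddGroup.quotientKerEquivOfSurjective f hf).toEquiv
  have c3 : Nat.card f.ker = Nat.card (ℤ[X] ⧸ J) := by
    rw [← hrange, ← Nat.card_congr (QuotientAddGroup.quotientKerEquivRange g).toEquiv, hker]
    rfl
  rw [c1, c2, c3]

theorem quotStm : QUOTStm := by
  classical
  intro s A z Q
  induction A using Finset.induction_on with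
  | empty =>
    intro _
    have h1 : Ideal.span ({∏ i ∈ (∅ : Finset (Fin s)), ((X : ℤ[X]) - C (z i)), Q} : Set ℤ[X]) =
        ⊤ := by
      rw [Ideal.eq_top_iff_one]
      exact Ideal.subset_span (by simp)
    rw [h1, Finset.prod_empty]
    exact Nat.card_unique
  | insert i A hi ih =>
    intro hQ
    have hA : ∀ j ∈ A, Q.eval (z j) ≠ 0 := fun j hj => hQ j (Finset.mem_insert_of_mem hj)
    have hne : ∏ j ∈ A, ((X : ℤ[X]) - C (z j)) ≠ 0 :=
      Finset.prod_ne_zero_iff.2 fun j _ => X_sub_C_ne_zero _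
    rw [Finset.prod_insert hi, Finset.prod_insert hi, card_step _ _ _ hne, ih hA, card_one,
      mul_comm]
    intro v hv
    have hrel : IsRelPrime (∏ j ∈ A, ((X : ℤ[X]) - C (z j))) Q := by
      apply IsRelPrime.prod_left
      intro j hj
      rw [(prime_X_sub_C (z j)).irreducible.isRelPrime_iff_not_dvd]
      intro h
      exact hA j hj (dvd_iff_isRoot.1 h)
    exact hrel.dvd_of_dvd_mul_right hv

theorem QUOT.main : QUOTStm := quotStm

end Pool.Agent.Y672.PX
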