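import Pool.Agent.Y970.PX.Stm

/-! Project PX: the quotient by two relatively prime polynomials and the resultant. -/

set_option autoImplicit false

namespace Pool.Agent.Y672.PX

open Finset Polynomial Pool.Agent.Y970.PX

/-- finitely generated abelian groups which are divisible by all primes are trivial -/
lemma triv {M : Type} [AddCommGroup M] [Module.Finite ℤ M]
    (h : ∀ p : ℕ, p.Prime → ∀ x : M, ∃ y, x = (p : ℤ) • y) : Subsingleton M := by
  by_contra hcon
  rw [not_subsingleton_iff_nontrivial] at hcon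
  obtain ⟨N, hN⟩ := IsCoatomic.exists_coatom (Submodule ℤ M)
  have hs : IsSimpleModule ℤ (M ⧸ N) := isSimpleModule_iff_isCoatom.2 hN
  obtain ⟨I, hI, ⟨e⟩⟩ := isSimpleModule_iff_quot_maximal.1 hs
  have hne : I ≠ ⊥ := Ring.ne_bot_of_isMaximal_of_not_isField hI Int.not_isField
  have hpr := Submodule.IsPrincipal.prime_generator_of_isPrime I hne
  obtain ⟨g, hg⟩ : ∃ g, g = Submodule.IsPrincipal.generator I := ⟨_, rfl⟩
  have hgI : g ∈ I := hg ▸ Submodule.IsPrincipal.generator_mem I
  rw [← hg] at hpr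
  have hp : g.natAbs.Prime := Int.prime_iff_natAbs_prime.1 hpr
  have hgI' : ((g.natAbs : ℕ) : ℤ) ∈ I := by
    rcases Int.natAbs_eq g with h1 | h1
    · rw [← h1]
      exact hgI
    · rw [h1] at hgI
      simpa using I.neg_mem hgI
  apply hN.1
  rw [eq_top_iff]
  intro x _
  obtain ⟨y, rfl⟩ := h _ hp x
  have h1 : ((g.natAbs : ℕ) : ℤ) • (Submodule.Quotient.mk y : M ⧸ N) = 0 := by
    apply e.injective
    rw [map_smul, map_zero]
    obtain ⟨a, ha⟩ := Ideal.Quotient.mk_surjective (e (Submodule.Quotient.mk y))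
    rw [← ha]
    show Ideal.Quotient.mk I (((g.natAbs : ℕ) : ℤ) * a) = 0
    rw [Ideal.Quotient.eq_zero_iff_mem]
    exact I.mul_mem_right _ hgI'
  rw [← Submodule.Quotient.mk_smul, Submodule.Quotient.mk_eq_zero] at h1
  exact h1

/-- division modulo a prime -/
lemma divp {p : ℕ} (hp : p.Prime) {E : ℤ[X]} {k : ℕ} (hk : E.natDegree ≤ k)
    (hE : E.map (Int.castRingHom (ZMod p)) ≠ 0) (f : ℤ[X]) :
    ∃ q r t : ℤ[X], f = E * q + r + C (p : ℤ) * t ∧ r.degree < k := by
  have : Fact p.Prime := ⟨hp⟩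
  obtain ⟨φ, hφ⟩ : ∃ φ, φ = Int.castRingHom (ZMod p) := ⟨_, rfl⟩
  rw [← hφ] at hE
  have hsurj : Function.Surjective φ := by
    rw [hφ]
    exact ZMod.intCast_surjective
  have hlift : ∀ h : (ZMod p)[X], h ∈ lifts φ := by
    intro h
    rw [lifts_iff_coeff_lifts]
    intro n
    exact hsurj _
  obtain ⟨q, hq, -⟩ := exists_degree_eq_of_mem_lifts (hlift (f.map φ / E.map φ))
  obtain ⟨r, hr, hrd⟩ := exists_degree_eq_of_mem_lifts (hlift (f.map φ % E.map φ))
  have h1 : E.map φ * (f.map φ / E.map φ) + f.map φ % E.map φ = f.map φ :=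
    EuclideanDomain.div_add_mod _ _
  have h2 : (f - (E * q + r)).map φ = 0 := by
    rw [Polynomial.map_sub, Polynomial.map_add, Polynomial.map_mul, hq, hr, h1, sub_self]
  have h3 : C (p : ℤ) ∣ f - (E * q + r) := by
    rw [C_dvd_iff_dvd_coeff]
    intro i
    have h4 := congrArg (fun h => h.coeff i) h2
    simp only [coeff_map, coeff_zero] at h4
    rw [hφ] at h4
    exact (ZMod.intCast_zmod_eq_zero_iff_dvd _ _).1 h4
  obtain ⟨t, ht⟩ := h3
  refine ⟨q, r, t, by linear_combination ht, ?_⟩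
  rw [hrd]
  calc (f.map φ % E.map φ).degree < (E.map φ).degree := EuclideanDomain.mod_lt _ hE
    _ ≤ E.degree := degree_map_le
    _ ≤ E.natDegree := degree_le_natDegree
    _ ≤ k := by exact_mod_cast hk

theorem resStm : RESStm := by
  intro P E E1 hP hrel hE hE1
  obtain ⟨m, hm⟩ : ∃ m, m = E.natDegree := ⟨_, rfl⟩
  obtain ⟨n, hn⟩ : ∃ n, n = E1.natDegree := ⟨_, rfl⟩
  rw [← hm, ← hn]
  let b₁ := ((degreeLT.basis ℤ m).prod (degreeLT.basis ℤ n)).reindex finSumFinEquiv
  let b₂ := degreeLT.basis ℤ (m + n)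
  let S := sylvesterMap (m := m) (n := n) E E1 hm.symm.le hn.symm.le
  have hSinj : ∀ x, S x = 0 → x = 0 := by
    rintro ⟨⟨p, hp⟩, ⟨q, hq⟩⟩ h
    have h1 : E * q + E1 * p = 0 := congrArg Subtype.val h
    have h2 : E ∣ E1 * p := ⟨-q, by linear_combination h1⟩
    have h3 : E ∣ p := hrel.dvd_of_dvd_mul_left h2
    have h4 : p = 0 := by
      apply eq_zero_of_dvd_of_degree_lt h3
      rw [degree_eq_natDegree hE, ← hm]
      exact mem_degreeLT.1 hp
    subst h4
    have h5 : q = 0 := by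
      rw [mul_zero, add_zero] at h1
      exact (mul_eq_zero.1 h1).resolve_left hE
    subst h5
    rfl
  have hmat : S.toMatrix b₁ b₂ = sylvester E E1 m n :=
    toMatrix_sylvesterMap' E E1 hm.symm.le hn.symm.le
  have hρ : resultant E E1 m n ≠ 0 := by
    intro h0
    obtain ⟨v, hv, hv0⟩ := Matrix.exists_mulVec_eq_zero_iff.2 (show
      (sylvester E E1 m n).det = 0 from h0)
    apply hv
    have h1 : S (b₁.equivFun.symm v) = 0 := by
      apply b₂.repr.injective
      rw [map_zero]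
      apply Finsupp.ext
      intro i
      have h2 := congrFun (LinearMap.toMatrix_mulVec_repr b₁ b₂ S (b₁.equivFun.symm v)) i
      rw [hmat] at h2
      have h3 : (⇑(b₁.repr (b₁.equivFun.symm v))) = v := by
        funext j
        have := congrFun (b₁.equivFun.apply_symm_apply v) j
        rwa [Module.Basis.equivFun_apply] at this
      rw [h3, hv0] at h2
      exact h2.symm
    have h2 := hSinj _ h1
    have := congrArg b₁.equivFun h2
    rwa [LinearEquiv.apply_symm_apply, map_zero] at this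
  let e0 : ℤ[X]_(m + n) ≃ₗ[ℤ] ℤ[X]_m × ℤ[X]_n := b₂.equiv b₁ (Equiv.refl _)
  let T : ℤ[X]_(m + n) →ₗ[ℤ] ℤ[X]_(m + n) := S ∘ₗ e0.toLinearMap
  have hdet : LinearMap.det T = resultant E E1 m n := by
    rw [← LinearMap.det_toMatrix b₂ T, LinearMap.toMatrix_comp b₂ b₁ b₂, hmat,
      LinearMap.toMatrix_basis_equiv, Matrix.mul_one]
    rfl
  have hT : Function.Injective T := by
    rw [injective_iff_map_eq_zero]
    intro x hx
    exact (LinearEquiv.map_eq_zero_iff e0).1 (hSinj _ hx)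
  have : Module.Free ℤ (ℤ[X]_(m + n)) := Module.Free.of_basis b₂
  have : Module.Finite ℤ (ℤ[X]_(m + n)) := Module.Finite.of_basis b₂
  have hcard : Nat.card (ℤ[X]_(m + n) ⧸ LinearMap.range T) = (resultant E E1 m n).natAbs := by
    rw [← hdet, ← Submodule.natAbs_det_equiv (LinearMap.range T) (LinearEquiv.ofInjective T hT)]
    rfl
  have hfin : Finite (ℤ[X]_(m + n) ⧸ LinearMap.range T) := by
    apply Nat.finite_of_card_ne_zero
    rw [hcard]
    exact Int.natAbs_ne_zero.2 hρ
  obtain ⟨I, hI⟩ : ∃ I, I = Ideal.span ({P, E, E1} : Set ℤ[X]) := ⟨_, rfl⟩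
  rw [← hI]
  have iP : P ∈ I := by rw [hI]; exact Ideal.subset_span (by simp)
  have iE : E ∈ I := by rw [hI]; exact Ideal.subset_span (by simp)
  have iE1 : E1 ∈ I := by rw [hI]; exact Ideal.subset_span (by simp)
  let ψ : ℤ[X]_(m + n) →ₗ[ℤ] (ℤ[X] ⧸ I) :=
    (Ideal.Quotient.mk I).toAddMonoidHom.toIntLinearMap ∘ₗ
      (ℤ[X]_(m + n)).subtype
  have hψ : ∀ x, ψ x = Ideal.Quotient.mk I x.1 := fun x => rfl
  have hker : LinearMap.range T ≤ LinearMap.ker ψ := by
    rintro _ ⟨x, rfl⟩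
    rw [LinearMap.mem_ker, hψ, Ideal.Quotient.eq_zero_iff_mem]
    show E * (e0 x).2.1 + E1 * (e0 x).1.1 ∈ I
    exact I.add_mem (I.mul_mem_right _ iE) (I.mul_mem_right _ iE1)
  have hGfin : Module.Finite ℤ (ℤ[X] ⧸ I) := by
    have h1 : Module.Finite ℤ (ℤ[X] ⧸ Ideal.span ({P} : Set ℤ[X])) := hP.finite_quotient
    have hle : Ideal.span ({P} : Set ℤ[X]) ≤ I := by
      rw [Ideal.span_singleton_le_iff_mem]
      exact iP
    exact Module.Finite.of_surjective
      (Ideal.Quotient.factor hle).toAddMonoidHom.toIntLinearMap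
      (Ideal.Quotient.factor_surjective hle)
  have htriv : Subsingleton ((ℤ[X] ⧸ I) ⧸ LinearMap.range ψ) := by
    apply triv
    intro p hp x
    obtain ⟨x, rfl⟩ := Submodule.Quotient.mk_surjective _ x
    obtain ⟨f, rfl⟩ := Ideal.Quotient.mk_surjective x
    have key : ∀ D : ℤ[X], D ∈ I → D.natDegree ≤ m + n →
        D.map (Int.castRingHom (ZMod p)) ≠ 0 →
        ∃ y : (ℤ[X] ⧸ I) ⧸ LinearMap.range ψ,
          (Submodule.Quotient.mk (Ideal.Quotient.mk I f) : (ℤ[X] ⧸ I) ⧸ LinearMap.range ψ) =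
            (p : ℤ) • y := by
      intro D hD hdeg hne
      obtain ⟨q, r, t, hf, hr⟩ := divp hp hdeg hne f
      refine ⟨Submodule.Quotient.mk (Ideal.Quotient.mk I t), ?_⟩
      rw [← Submodule.Quotient.mk_smul, Submodule.Quotient.eq]
      refine ⟨⟨r, mem_degreeLT.2 hr⟩, ?_⟩
      rw [hψ]
      have e1 : (p : ℤ) • (Ideal.Quotient.mk I t) = Ideal.Quotient.mk I (C (p : ℤ) * t) := by
        rw [map_mul, zsmul_eq_mul]
        congr 1
      rw [e1, ← map_sub, Ideal.Quotient.mk_eq_mk_iff_sub_mem]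
      have e2 : r - (f - C (p : ℤ) * t) = -(D * q) := by
        rw [hf]
        ring
      show r - (f - C (p : ℤ) * t) ∈ I
      rw [e2]
      exact I.neg_mem (I.mul_mem_right _ hD)
    by_cases h1 : E.map (Int.castRingHom (ZMod p)) = 0
    · by_cases h2 : E1.map (Int.castRingHom (ZMod p)) = 0
      · exfalso
        have dv : ∀ D : ℤ[X], D.map (Int.castRingHom (ZMod p)) = 0 → C (p : ℤ) ∣ D := by
          intro D hD
          rw [C_dvd_iff_dvd_coeff]
          intro i
          have h4 := congrArg (fun h => h.coeff i) hD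
          simp only [coeff_map, coeff_zero] at h4
          exact (ZMod.intCast_zmod_eq_zero_iff_dvd _ _).1 h4
        have h3 := hrel (dv E h1) (dv E1 h2)
        rw [isUnit_C, Int.isUnit_iff] at h3
        have := hp.two_le
        omega
      · exact key E1 iE1 (by rw [hn]; omega) h2
    · exact key E iE (by rw [hm]; omega) h1
  have hsurj : Function.Surjective ψ := by
    rw [← LinearMap.range_eq_top]
    exact Submodule.Quotient.subsingleton_iff.1 htriv
  have hsurj' : Function.Surjective ((LinearMap.range T).liftQ ψ hker) := by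
    intro y
    obtain ⟨x, rfl⟩ := hsurj y
    exact ⟨Submodule.Quotient.mk x, rfl⟩
  refine ⟨Finite.of_surjective _ hsurj', ?_⟩
  rw [← hcard]
  exact Nat.card_le_card_of_surjective _ hsurj'

theorem RES.main : RESStm := resStm

end Pool.Agent.Y672.PX
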